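import Pool.Agent.P.MP_bdc337_an.UO.D

/-! The two bounds in the final form. -/

set_option autoImplicit false

open Finset PowerSeries Metric Filter Topology Real

namespace Pool.Agent.P.MP_bdc337_an.UO

lemma Lf_inv (e : ℝ) {x : ℝ} (hx : 0 ≤ x) : Lf e (1 / x) = 2 * (1 - x ^ (-e)) / e := by
  rw [Lf, one_div, Real.inv_rpow hx, Real.rpow_neg hx]

lemma Lf_succ {e x : ℝ} (he : 0 < e) (hx : 1 ≤ x) :
    Lf e (1 / (x + 1)) ≤ Lf e (1 / x) + 2 * Real.log 2 := by
  have x0 : 0 < x := by linarith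
  have e1 : (x + 1) / x * (1 / (x + 1)) = 1 / x := by field_simp
  have h := Lf_ratio (e := e) (y := 1 / (x + 1)) (l := (x + 1) / x) he (by positivity)
    (by rw [le_div_iff₀ x0]; linarith) (by rw [e1, div_le_one x0]; exact hx)
  rw [e1] at h
  have : Real.log ((x + 1) / x) ≤ Real.log 2 :=
    Real.log_le_log (by positivity) (by rw [div_le_iff₀ x0]; linarith)
  linarith

/-- The choice of the scale. -/
lemma scale {e : ℝ} (e0 : 0 < e) (e1 : e < 1) {N : ℕ} (hN : 1 ≤ N) :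
    ∃ m : ℕ, 1 ≤ m ∧ m ≤ N ∧ e + ((N : ℝ) + 1) ^ (-e) ≤ 2 * (m : ℝ) ^ (-e) ∧
      Lf e (1 / ((N : ℝ) + 1)) ≤ Lf e (1 / m) + (2 * Real.log 2 + 2) := by
  classical
  set P : ℕ → Prop := fun m => e ≤ (m : ℝ) ^ (-e) with hP
  have p1 : P 1 := by simp [hP, e1.le]
  have m1 : 1 ≤ Nat.findGreatest P N := Nat.le_findGreatest hN p1
  have m2 : Nat.findGreatest P N ≤ N := Nat.findGreatest_le N
  have m3 : P (Nat.findGreatest P N) := Nat.findGreatest_spec hN p1
  have m4 : Nat.findGreatest P N < N → ¬ P (Nat.findGreatest P N + 1) := fun h =>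
    Nat.findGreatest_is_greatest (Nat.lt_succ_self _) h
  generalize Nat.findGreatest P N = m at m1 m2 m3 m4
  have r1 : (1 : ℝ) ≤ m := by exact_mod_cast m1
  have r2 : (m : ℝ) ≤ N := by exact_mod_cast m2
  refine ⟨m, m1, m2, ?_, ?_⟩
  · have : ((N : ℝ) + 1) ^ (-e) ≤ (m : ℝ) ^ (-e) :=
      Real.rpow_le_rpow_of_nonpos (by linarith) (by linarith) (by linarith)
    have m3' : e ≤ (m : ℝ) ^ (-e) := m3
    linarith
  · have s := Lf_succ e0 r1
    rcases m2.eq_or_lt with h | h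
    · rw [← h]; linarith
    · have q : ((m : ℝ) + 1) ^ (-e) < e := by
        have := m4 h
        simp only [hP, not_le] at this
        exact_mod_cast this
      have l1 : Lf e (1 / ((N : ℝ) + 1)) ≤ 2 / e := Lf_le e0 (by positivity)
      have l2 : 2 / e - 2 ≤ Lf e (1 / ((m : ℝ) + 1)) := by
        rw [Lf_inv e (by linarith), le_div_iff₀ e0, sub_mul, div_mul_cancel₀ _ e0.ne']
        linarith
      linarith

theorem lower_fin {a : ℝ} (h0 : 0 < a) (h1 : a < 1) {n : ℕ} (hn : 2 ≤ n) :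
    ∃ q H G : ℂ → ℂ, Dat a q H G ∧
      a / n * ((1 - a) + (n : ℝ) ^ (-(1 - a))) * exp (Lf (1 - a) (1 / n)) ≤
        4000000 * exp (2 * Real.log 2 + 2) * ‖coeff n (tay fun z => z * Complex.exp (G z))‖ := by
  obtain ⟨N, rfl⟩ : ∃ N, n = N + 1 := ⟨n - 1, by omega⟩
  obtain ⟨m, m1, m2, s1, s2⟩ := scale (e := 1 - a) (by linarith) (by linarith)
    (show 1 ≤ N by omega)
  obtain ⟨q, H, G, hD, hl⟩ := lower h0 h1 m1 m2
  refine ⟨q, H, G, hD, ?_⟩
  push_cast
  set c := ‖coeff (N + 1) (tay fun z => z * Complex.exp (G z))‖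
  have c0 : 0 ≤ c := norm_nonneg _
  have N0 : (0 : ℝ) ≤ N := Nat.cast_nonneg N
  have s3 := exp_le_exp.2 s2
  rw [exp_add] at s3
  set K := exp (2 * Real.log 2 + 2)
  have K0 : 0 < K := exp_pos _
  have mp : 0 ≤ (m : ℝ) ^ (-(1 - a)) := by positivity
  calc a / (N + 1) * ((1 - a) + ((N : ℝ) + 1) ^ (-(1 - a))) * exp (Lf (1 - a) (1 / (N + 1)))
      ≤ a / (N + 1) * (2 * (m : ℝ) ^ (-(1 - a))) * (exp (Lf (1 - a) (1 / m)) * K) := by
        gcongr
    _ = 2 * K / (N + 1) * (a * (m : ℝ) ^ (-(1 - a)) * exp (Lf (1 - a) (1 / m))) := by ring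
    _ ≤ 2 * K / (N + 1) * (2000000 * ((N + 1) * c)) := by
        refine mul_le_mul_of_nonneg_left (hl.trans ?_) (by positivity)
        gcongr
        linarith
    _ = 4000000 * K * c := by field_simp; ring

theorem upper_fin {a : ℝ} (h0 : 0 < a) (h1 : a < 1) {f : ℂ → ℂ}
    (hd : DifferentiableOn ℂ f (ball 0 1)) (hi : Set.InjOn f (ball 0 1)) (hf0 : f 0 = 0)
    (hf1 : deriv f 0 = 1)
    (harg : ∀ z ∈ ball (0 : ℂ) 1, z ≠ 0 → |Complex.arg (z * deriv f z / f z)| < a * π / 2)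
    {n : ℕ} (hn : 2 ≤ n) : ‖coeff n (tay f)‖ ≤
      108 * (a / n * ((1 - a) + (n : ℝ) ^ (-(1 - a))) * exp (Lf (1 - a) (1 / n))) := by
  have n2 : (2 : ℝ) ≤ n := by exact_mod_cast hn
  have n0 : (0 : ℝ) < n := by linarith
  have np : 0 ≤ (n : ℝ) ^ (-(1 - a)) := by positivity
  have x1 : 1 ≤ exp (Lf (1 - a) (1 / n)) := one_le_exp (Lf_nonneg (by linarith) (by positivity)
    (by rw [div_le_one n0]; linarith))
  rcases le_or_gt a (1 / 3) with h | h
  · obtain ⟨N, rfl⟩ : ∃ N, n = N + 1 := ⟨n - 1, by omega⟩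
    refine (Pool.Agent.P.MP_bdc337_an.upper h0 h hd hi hf0 hf1 harg (by omega)).trans ?_
    push_cast at *
    have N1 : (1 : ℝ) ≤ N := by linarith
    calc 2 * a / N ≤ 108 * (a / (N + 1) * (2 / 3) * 1) := by
          rw [div_le_iff₀ (by linarith)]
          field_simp
          nlinarith
      _ ≤ _ := by
          gcongr
          linarith
  · obtain ⟨q, H, G, hD, hf⟩ := exists_dat h0 h1 hd hi hf0 hf1 harg
    have : f =ᶠ[𝓝 0] fun z => z * Complex.exp (G z) :=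
      Filter.mem_of_superset (ball_mem_nhds 0 one_pos) hf
    have e : coeff n (tay f) = coeff n (tay fun z => z * Complex.exp (G z)) := by
      rw [coeff_tay, coeff_tay, this.iteratedDeriv_eq]
    rw [e]
    refine (hD.upper hn).trans ?_
    have e0 : 0 < 1 - a := by linarith
    calc 36 / n * ((1 - a) + (n : ℝ) ^ (-(1 - a))) * exp (Lf (1 - a) (1 / n))
        = 108 * ((1 / 3) / n * ((1 - a) + (n : ℝ) ^ (-(1 - a))) * exp (Lf (1 - a) (1 / n))) := by
          ring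
      _ ≤ _ := by gcongr

end Pool.Agent.P.MP_bdc337_an.UO
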