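import Pool.Agent.P.MP_bdc337_an.Upper
import Pool.Agent.P.MP_bdc337_an.Extremal

/-! Functions with values in a sector: pointwise bounds and radial growth. -/

set_option autoImplicit false

open Finset PowerSeries Metric Filter Topology

namespace Pool.Agent.P.MP_bdc337_an.UO

lemma norm_sub_le_add {u v : ℂ} (hu : 0 < u.re) (hv : 0 < v.re) :
    ‖u - v‖ ≤ ‖u + (starRingEnd ℂ) v‖ := by
  apply abs_le_of_sq_le_sq' _ (norm_nonneg _) |>.2
  rw [Complex.sq_norm, Complex.sq_norm, Complex.normSq_apply, Complex.normSq_apply]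
  simp
  nlinarith [mul_pos hu hv]

lemma add_conj_ne {u v : ℂ} (hu : 0 < u.re) (hv : 0 < v.re) : u + (starRingEnd ℂ) v ≠ 0 := by
  intro h
  have := congrArg Complex.re h
  simp at this
  linarith

/-- Schwarz-Pick at the centre for functions with positive real part. -/
lemma cara_deriv {p : ℂ → ℂ} {c : ℂ} {R : ℝ} (hR : 0 < R) (hd : DifferentiableOn ℂ p (ball c R))
    (hp : ∀ z ∈ ball c R, 0 < (p z).re) : ‖deriv p c‖ ≤ 2 * (p c).re / R := by
  have hc : c ∈ ball c R := mem_ball_self hR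
  have hpc := hp c hc
  set w : ℂ → ℂ := fun z => (p z - p c) / (p z + (starRingEnd ℂ) (p c)) with hw
  have hwd : DifferentiableOn ℂ w (ball c R) :=
    (hd.sub_const _).div (hd.add_const _) fun z hz => add_conj_ne (hp z hz) hpc
  have hm : Set.MapsTo w (ball c R) (closedBall (w c) 1) := by
    intro z hz
    have : w c = 0 := by simp [hw]
    rw [this, mem_closedBall_zero_iff, hw]
    simp only [norm_div]
    rw [div_le_one (norm_pos_iff.2 (add_conj_ne (hp z hz) hpc))]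
    exact norm_sub_le_add (hp z hz) hpc
  have h1 := Complex.norm_deriv_le_div_of_mapsTo_ball hwd hm hR
  have h2 : HasDerivAt p (deriv p c) c :=
    (hd.differentiableAt (isOpen_ball.mem_nhds hc)).hasDerivAt
  have h3 : HasDerivAt w (deriv p c / (2 * (p c).re : ℝ)) c := by
    refine ((h2.sub_const (p c)).fun_div (h2.add_const ((starRingEnd ℂ) (p c)))
      (add_conj_ne hpc hpc)).congr_deriv ?_
    have e : p c + (starRingEnd ℂ) (p c) = (2 * (p c).re : ℝ) := Complex.add_conj _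
    have : ((2 * (p c).re : ℝ) : ℂ) ≠ 0 := by rw [← e]; exact add_conj_ne hpc hpc
    rw [e, sub_self]
    field_simp
    ring
  rw [h3.deriv, norm_div, Complex.norm_real, Real.norm_of_nonneg (by positivity),
    div_le_iff₀ (by positivity)] at h1
  rw [le_div_iff₀ hR]
  rw [div_mul_eq_mul_div, le_div_iff₀ hR] at h1
  linarith

lemma cara_norm {p : ℂ → ℂ} (hd : DifferentiableOn ℂ p (ball 0 1)) (h0 : p 0 = 1)
    (hp : ∀ z ∈ ball (0 : ℂ) 1, 0 < (p z).re) {z : ℂ} (hz : ‖z‖ < 1) :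
    ‖p z‖ ≤ (1 + ‖z‖) / (1 - ‖z‖) := by
  have h1 : ∀ z ∈ ball (0 : ℂ) 1, p z + 1 ≠ 0 := fun z hz => by
    simpa using add_conj_ne (v := 1) (hp z hz) (by simp)
  set w : ℂ → ℂ := fun z => (p z - 1) / (p z + 1) with hw
  have hwd : DifferentiableOn ℂ w (ball 0 1) := (hd.sub_const _).div (hd.add_const _) h1
  have hm : Set.MapsTo w (ball 0 1) (closedBall 0 1) := by
    intro z hz
    rw [mem_closedBall_zero_iff, hw]
    simp only [norm_div]
    rw [div_le_one (norm_pos_iff.2 (h1 z hz))]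
    simpa using norm_sub_le_add (v := 1) (hp z hz) (by simp)
  have h2 := Complex.norm_le_norm_of_mapsTo_ball hwd hm (by simp [hw, h0]) hz
  simp only [hw, norm_div] at h2
  rw [div_le_iff₀ (norm_pos_iff.2 (h1 z (mem_ball_zero_iff.2 hz)))] at h2
  have h3 : ‖p z‖ - 1 ≤ ‖p z - 1‖ := by simpa using norm_sub_norm_le (p z) 1
  have h4 : ‖p z + 1‖ ≤ ‖p z‖ + 1 := by simpa using norm_add_le (p z) 1
  rw [le_div_iff₀ (by linarith)]
  nlinarith [norm_nonneg z]

/-- `q` has values in the sector, `G` is the primitive of `(q - 1) / z`. -/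
structure Dat (a : ℝ) (q H G : ℂ → ℂ) : Prop where
  a0 : 0 < a
  a1 : a < 1
  qd : DifferentiableOn ℂ q (ball 0 1)
  q0 : q 0 = 1
  re : ∀ z ∈ ball (0 : ℂ) 1, 0 < (q z).re
  arg : ∀ z ∈ ball (0 : ℂ) 1, |Complex.arg (q z)| < a * Real.pi / 2
  hH : ∀ z ∈ ball (0 : ℂ) 1, z * H z = q z - 1
  G0 : G 0 = 0
  Gd : ∀ z ∈ ball (0 : ℂ) 1, HasDerivAt G (H z) z

variable {a : ℝ} {q H G : ℂ → ℂ}

lemma Dat.norm_le (h : Dat a q H G) {z : ℂ} (hz : ‖z‖ < 1) :
    ‖q z‖ ≤ ((1 + ‖z‖) / (1 - ‖z‖)) ^ a := by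
  have h0 := h.a0
  set E : ℂ → ℂ := fun z => Complex.exp (Complex.log (q z) / a) with hE
  have hEre : ∀ z ∈ ball (0 : ℂ) 1, 0 < (E z).re := by
    intro z hz
    simp only [hE, Complex.exp_re, Complex.div_ofReal_im, Complex.log_im]
    apply mul_pos (Real.exp_pos _)
    have := abs_lt.1 (h.arg z hz)
    apply Real.cos_pos_of_mem_Ioo
    constructor
    · rw [lt_div_iff₀ h0]
      linarith [this.1]
    · rw [div_lt_iff₀ h0]
      linarith [this.2]
  have hEd : DifferentiableOn ℂ E (ball 0 1) :=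
    ((h.qd.clog fun z hz => Or.inl (h.re z hz)).div_const _).cexp
  have h1 := cara_norm hEd (by simp [hE, h.q0]) hEre hz
  have hq : 0 < ‖q z‖ := norm_pos_iff.2 fun e => by
    have := h.re z (mem_ball_zero_iff.2 hz)
    simp [e] at this
  have h2 : ‖E z‖ ^ a = ‖q z‖ := by
    simp only [hE, Complex.norm_exp, Complex.div_ofReal_re, Complex.log_re]
    rw [← Real.exp_mul, div_mul_cancel₀ _ h0.ne', Real.exp_log hq]
  rw [← h2]
  exact Real.rpow_le_rpow (norm_nonneg _) h1 h0.le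

lemma pow_ineq (h0 : 0 < a) (h1 : a < 1) {t : ℝ} (t0 : 0 ≤ t) (t1 : t < 1) :
    ((1 + t) / (1 - t)) ^ a ≤ 1 + 2 * t * (1 - t) ^ (-a) := by
  have p1 : 0 < 1 - t := by linarith
  have p2 : 0 < (1 - t) ^ a := Real.rpow_pos_of_pos p1 _
  have e1 : (1 + t) ^ a ≤ 1 + t := by
    simpa using Real.rpow_le_rpow_of_exponent_le (x := 1 + t) (by linarith) h1.le
  have e2 : 1 - t ≤ (1 - t) ^ a := by
    simpa using Real.rpow_le_rpow_of_exponent_ge p1 (by linarith) h1.le
  rw [Real.div_rpow (by linarith) p1.le, Real.rpow_neg p1.le, div_le_iff₀ p2]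
  field_simp
  linarith

/-- the growth exponent -/
noncomputable def Lf (e y : ℝ) : ℝ := 2 * (1 - y ^ e) / e

lemma Lf_deriv (h1 : a < 1) {t r : ℝ} (t1 : r * t < 1) :
    HasDerivAt (fun t => Lf (1 - a) (1 - r * t)) (2 * r * (1 - r * t) ^ (-a)) t := by
  have p1 : 0 < 1 - r * t := by linarith
  have l1 : HasDerivAt (fun t => 1 - r * t) (-r) t := by
    simpa using ((hasDerivAt_id t).const_mul r).const_sub 1
  have l2 := (((l1.rpow_const (p := 1 - a) (Or.inl p1.ne')).const_sub 1).const_mul 2).div_const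
    (1 - a)
  refine l2.congr_deriv ?_
  have : 1 - a ≠ 0 := by linarith
  rw [show 1 - a - 1 = -a by ring]
  field_simp

lemma Lf_one (e : ℝ) : Lf e 1 = 0 := by simp [Lf]

lemma Lf_le {e y : ℝ} (he : 0 < e) (hy : 0 ≤ y) : Lf e y ≤ 2 / e := by
  have := Real.rpow_nonneg hy e
  unfold Lf
  gcongr
  linarith

lemma Lf_nonneg {e y : ℝ} (he : 0 < e) (hy : 0 ≤ y) (hy1 : y ≤ 1) : 0 ≤ Lf e y := by
  have := Real.rpow_le_one hy hy1 he.le
  unfold Lf
  apply div_nonneg _ he.le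
  linarith

lemma Lf_ratio {e y l : ℝ} (he : 0 < e) (hy : 0 < y) (hl : 1 ≤ l) (h1 : l * y ≤ 1) :
    Lf e y ≤ Lf e (l * y) + 2 * Real.log l := by
  have l0 : 0 < l := by linarith
  have e1 : (l * y) ^ e ≤ 1 := Real.rpow_le_one (by positivity) h1 he.le
  have e0 : 0 < (l * y) ^ e := by positivity
  have e2 : y ^ e = (l * y) ^ e * Real.exp (-(e * Real.log l)) := by
    rw [Real.mul_rpow l0.le hy.le, Real.rpow_def_of_pos l0, mul_right_comm, ← Real.exp_add]
    simp [mul_comm]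
  have e3 := Real.add_one_le_exp (-(e * Real.log l))
  have e4 : 0 ≤ e * Real.log l := mul_nonneg he.le (Real.log_nonneg hl)
  unfold Lf
  rw [div_add' _ _ _ he.ne', div_le_div_iff_of_pos_right he, e2]
  nlinarith

lemma Dat.ray (h : Dat a q H G) {x : ℂ} (hx : ‖x‖ = 1) {t : ℝ} (t0 : 0 < t) (t1 : t < 1) :
    HasDerivAt (fun t : ℝ => (G (t * x)).re) (((q (t * x)).re - 1) / t) t := by
  have hn : (t * x : ℂ) ∈ ball (0 : ℂ) 1 := by
    rw [mem_ball_zero_iff, norm_mul, hx, Complex.norm_real, Real.norm_of_nonneg t0.le]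
    linarith
  have l1 : HasDerivAt (fun s : ℂ => s * x) x t := by simpa using (hasDerivAt_id (t : ℂ)).mul_const x
  have l2 := ((h.Gd _ hn).comp (t : ℂ) l1).real_of_complex
  refine l2.congr_deriv ?_
  have := congrArg Complex.re (h.hH _ hn)
  rw [mul_assoc, Complex.re_ofReal_mul, Complex.sub_re, Complex.one_re] at this
  rw [← this, mul_comm x]
  field_simp

lemma Dat.ray_cont (h : Dat a q H G) {x : ℂ} (hx : ‖x‖ = 1) {s t : ℝ} (s0 : 0 ≤ s) (t1 : t < 1) :
    ContinuousOn (fun t : ℝ => (G (t * x)).re) (Set.Icc s t) := by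
  intro y hy
  have hn : (y * x : ℂ) ∈ ball (0 : ℂ) 1 := by
    rw [mem_ball_zero_iff, norm_mul, hx, Complex.norm_real, Real.norm_of_nonneg (s0.trans hy.1)]
    linarith [hy.2]
  have l1 : ContinuousAt (fun s : ℝ => (s * x : ℂ)) y := by fun_prop
  exact (Complex.continuous_re.continuousAt.comp
    (ContinuousAt.comp (f := fun s : ℝ => (s * x : ℂ)) (h.Gd _ hn).continuousAt l1)).continuousWithinAt

lemma mono_of_deriv {f f' : ℝ → ℝ} {s t : ℝ} (hst : s ≤ t) (hc : ContinuousOn f (Set.Icc s t))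
    (hd : ∀ y ∈ Set.Ioo s t, HasDerivAt f (f' y) y) (hp : ∀ y ∈ Set.Ioo s t, 0 ≤ f' y) :
    f s ≤ f t := by
  refine monotoneOn_of_deriv_nonneg (convex_Icc s t) hc (fun y hy => ?_) (fun y hy => ?_)
    (Set.left_mem_Icc.2 hst) (Set.right_mem_Icc.2 hst) hst
  · rw [interior_Icc] at hy
    exact (hd y hy).differentiableAt.differentiableWithinAt
  · rw [interior_Icc] at hy
    rw [(hd y hy).deriv]
    exact hp y hy

/-- radial growth -/
lemma Dat.growth (h : Dat a q H G) {x : ℂ} (hx : ‖x‖ = 1) {s t : ℝ} (s0 : 0 ≤ s) (hst : s ≤ t)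
    (t1 : t < 1) :
    (G (t * x)).re - (G (s * x)).re ≤ Lf (1 - a) (1 - t) - Lf (1 - a) (1 - s) := by
  have key := mono_of_deriv (f := fun t : ℝ => Lf (1 - a) (1 - 1 * t) - (G (t * x)).re)
    (f' := fun t => 2 * 1 * (1 - 1 * t) ^ (-a) - ((q (t * x)).re - 1) / t) hst
    (ContinuousOn.sub (fun y hy => (Lf_deriv h.a1 (by linarith [hy.2])).continuousAt.continuousWithinAt)
      (h.ray_cont hx s0 t1))
    (fun y hy => (Lf_deriv h.a1 (by linarith [hy.2])).sub
      (h.ray hx (s0.trans_lt hy.1) (hy.2.trans t1))) (fun y hy => ?_)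
  · simp only [one_mul] at key
    linarith
  · have y0 := s0.trans_lt hy.1
    have y1 := hy.2.trans t1
    have hn : ‖(y * x : ℂ)‖ = y := by
      rw [norm_mul, hx, Complex.norm_real, Real.norm_of_nonneg y0.le, mul_one]
    have e1 := h.norm_le (z := y * x) (by rwa [hn])
    rw [hn] at e1
    have e2 := pow_ineq h.a0 h.a1 y0.le y1
    have e3 := Complex.re_le_norm (q (y * x))
    simp only [one_mul, mul_one, sub_nonneg]
    rw [div_le_iff₀ y0]
    linarith

end Pool.Agent.P.MP_bdc337_an.UO
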