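import Pool.Agent.P.MP_bdc337_an.UO.A

/-! The upper bound. -/

set_option autoImplicit false

open Finset PowerSeries Metric Filter Topology Real

namespace Pool.Agent.P.MP_bdc337_an.UO

variable {a : ℝ} {q H G : ℂ → ℂ}

/-- the profile -/
noncomputable def prof (T L u : ℝ) : ℝ := min (exp L) (min (exp (T * u)) (exp (T * (2 * π - u))))

lemma prof_cont (T L : ℝ) : Continuous (prof T L) := by
  unfold prof
  fun_prop

lemma prof_int {T L : ℝ} (hT : 0 < T) (h0 : 0 ≤ L) (h1 : L ≤ π * T) :
    ∫ u in (0 : ℝ)..2 * π, prof T L u ≤ exp L * (2 / T + 2 * π - 2 * L / T) := by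
  have hi : ∀ x y, IntervalIntegrable (prof T L) MeasureTheory.volume x y :=
    fun x y => (prof_cont T L).intervalIntegrable x y
  have u0 : 0 ≤ L / T := by positivity
  have u1 : L / T ≤ π := by rwa [div_le_iff₀ hT]
  have eT : T * (L / T) = L := by field_simp
  rw [← intervalIntegral.integral_add_adjacent_intervals (hi 0 (L / T)) (hi _ _),
    ← intervalIntegral.integral_add_adjacent_intervals (hi (L / T) (2 * π - L / T)) (hi _ _)]
  have i1 : ∫ u in (0 : ℝ)..L / T, prof T L u ≤ exp L / T := by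
    refine (intervalIntegral.integral_mono_on u0 (hi _ _) (g := fun u => exp (T * u))
      (Continuous.intervalIntegrable (by fun_prop) _ _)
      fun x _ => (min_le_right _ _).trans (min_le_left _ _)).trans ?_
    rw [intervalIntegral.integral_eq_sub_of_hasDerivAt (f := fun u => exp (T * u) / T)
      (fun x _ => ?_) (Continuous.intervalIntegrable (by fun_prop) _ _), eT]
    · have : 0 ≤ exp (T * 0) / T := by positivity
      linarith
    · refine ((((hasDerivAt_id x).const_mul T).exp).div_const T).congr_deriv ?_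
      simp only [id]
      field_simp
  have i2 : ∫ u in L / T..2 * π - L / T, prof T L u ≤ exp L * (2 * π - 2 * L / T) := by
    refine (intervalIntegral.integral_mono_on (by linarith) (hi _ _) (g := fun _ => exp L)
      intervalIntegrable_const fun x _ => min_le_left _ _).trans (le_of_eq ?_)
    rw [intervalIntegral.integral_const, smul_eq_mul]
    ring
  have i3 : ∫ u in 2 * π - L / T..2 * π, prof T L u ≤ exp L / T := by
    refine (intervalIntegral.integral_mono_on (by linarith) (hi _ _)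
      (g := fun u => exp (T * (2 * π - u))) (Continuous.intervalIntegrable (by fun_prop) _ _)
      fun x _ => (min_le_right _ _).trans (min_le_right _ _)).trans ?_
    rw [intervalIntegral.integral_eq_sub_of_hasDerivAt (f := fun u => -exp (T * (2 * π - u)) / T)
      (fun x _ => ?_) (Continuous.intervalIntegrable (by fun_prop) _ _), sub_sub_cancel, eT]
    · have : 0 ≤ exp (T * (2 * π - 2 * π)) / T := by positivity
      simp only [neg_div]
      linarith
    · refine (((((hasDerivAt_id x).const_sub (2 * π)).const_mul T).exp).neg.div_const T).congr_deriv ?_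
      simp only [id]
      field_simp
  have : exp L * (2 / T + 2 * π - 2 * L / T) =
    exp L / T + (exp L * (2 * π - 2 * L / T) + exp L / T) := by ring
  linarith

lemma Dat.im_le (h : Dat a q H G) {z : ℂ} (hz : z ∈ ball (0 : ℂ) 1) :
    |(q z).im| ≤ 2 / ((1 - a) * π) * (q z).re := by
  have hpi := pi_pos
  have e0 : 0 < 1 - a := by linarith [h.a1]
  have h1 := h.arg z hz
  have h2 : 0 ≤ |Complex.arg (q z)| := abs_nonneg _
  set x := π / 2 - |Complex.arg (q z)| with hx
  have x0 : (1 - a) * π / 2 < x := by rw [hx]; linarith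
  have x1 : x ≤ π / 2 := by rw [hx]; linarith
  have x2 : 0 < (1 - a) * π / 2 := by positivity
  have hq : q z ≠ 0 := fun e => by simpa [e] using h.re z hz
  have c1 : (q z).re = ‖q z‖ * sin x := by
    rw [hx, sin_pi_div_two_sub, cos_abs, Complex.cos_arg hq]
    field_simp
  have c2 : |(q z).im| = ‖q z‖ * cos x := by
    have := abs_sin_eq_sin_abs_of_abs_le_pi (Complex.abs_arg_le_pi (q z))
    rw [hx, cos_pi_div_two_sub, ← this, Complex.sin_arg, abs_div, abs_norm]
    field_simp
  have c3 : x * cos x ≤ sin x := by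
    rcases eq_or_lt_of_le x1 with e | e
    · rw [e]; simp
    · have := le_tan (x2.trans x0).le e
      rwa [tan_eq_sin_div_cos, le_div_iff₀ (cos_pos_of_mem_Ioo ⟨by linarith, e⟩)] at this
  have c4 : 0 ≤ cos x := cos_nonneg_of_mem_Icc ⟨by linarith, x1⟩
  rw [c1, c2, mul_left_comm]
  apply mul_le_mul_of_nonneg_left _ (norm_nonneg _)
  rw [div_mul_eq_mul_div, le_div_iff₀ (by positivity)]
  nlinarith

lemma circ_mem {r : ℝ} (r0 : 0 < r) (r1 : r < 1) (θ : ℝ) : circleMap 0 r θ ∈ ball (0 : ℂ) 1 := by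
  rw [mem_ball_zero_iff, norm_circleMap_zero, abs_of_pos r0]
  exact r1

lemma Dat.circ (h : Dat a q H G) {r : ℝ} (r0 : 0 < r) (r1 : r < 1) (η θ : ℝ) :
    HasDerivAt (fun θ => G (circleMap 0 r (θ + η)))
      (Complex.I * (q (circleMap 0 r (θ + η)) - 1)) θ := by
  have l1 := (hasDerivAt_circleMap 0 r (θ + η)).comp_add_const θ η
  have l2 := (h.Gd _ (circ_mem r0 r1 (θ + η))).comp_of_eq θ l1 rfl
  refine l2.congr_deriv ?_
  rw [← h.hH _ (circ_mem r0 r1 (θ + η))]
  ring

lemma Dat.Gdiff (h : Dat a q H G) : DifferentiableOn ℂ G (ball 0 1) :=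
  fun z hz => (h.Gd z hz).differentiableAt.differentiableWithinAt

lemma Dat.exists_min (h : Dat a q H G) {r : ℝ} (r0 : 0 < r) (r1 : r < 1) :
    ∃ η : ℝ, (G (circleMap 0 r η)).re ≤ 0 := by
  have hd : DiffContOnCl ℂ (fun z => Complex.exp (-G z)) (ball 0 r) := by
    apply DifferentiableOn.diffContOnCl
    rw [closure_ball _ r0.ne']
    exact (h.Gdiff.mono (closedBall_subset_ball r1)).neg.cexp
  obtain ⟨z, hz, hm⟩ := Complex.exists_mem_frontier_isMaxOn_norm isBounded_ball
    (nonempty_ball.2 r0) hd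
  rw [frontier_ball _ r0.ne', ← abs_of_pos r0, ← range_circleMap] at hz
  obtain ⟨η, rfl⟩ := hz
  have := hm (subset_closure (mem_ball_self r0))
  simp only [Set.mem_ofPred_eq, Function.comp, h.G0, Complex.zero_re,
    Complex.norm_exp, Complex.neg_re, exp_le_exp] at this
  exact ⟨η, by linarith⟩

/-- the mean of the radius with respect to the argument of the image -/
lemma Dat.mean_rad (h : Dat a q H G) {r L : ℝ} (r0 : 0 < r) (r1 : r < 1) (L0 : 0 ≤ L)
    (L1 : L ≤ 2 / (1 - a)) (hL : ∀ θ, (G (circleMap 0 r θ)).re ≤ L) :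
    circleAverage (fun z => exp (G z).re * (q z).re) 0 r ≤
      exp L * ((1 - a) / 2 + (1 - (1 - a) * L / 2)) := by
  have hpi := pi_pos
  have e0 : 0 < 1 - a := by linarith [h.a1]
  set T := 2 / ((1 - a) * π) with hT
  have T0 : 0 < T := by positivity
  obtain ⟨η, hη⟩ := h.exists_min r0 r1
  set c : ℝ → ℂ := fun θ => circleMap 0 r (θ + η) with hc
  have cm : ∀ θ, c θ ∈ ball (0 : ℂ) 1 := fun θ => circ_mem r0 r1 _
  set s : ℝ → ℝ := fun θ => (G (c θ)).re with hs
  set u : ℝ → ℝ := fun θ => (G (c θ)).im + θ - (G (c 0)).im with hu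
  have ds : ∀ θ, HasDerivAt s (-(q (c θ)).im) θ := fun θ => by
    have := Complex.reCLM.hasFDerivAt.comp_hasDerivAt θ (h.circ r0 r1 η θ)
    refine this.congr_deriv ?_
    simp [hc]
  have du : ∀ θ, HasDerivAt u (q (c θ)).re θ := fun θ => by
    have := Complex.imCLM.hasFDerivAt.comp_hasDerivAt θ (h.circ r0 r1 η θ)
    refine ((this.add (hasDerivAt_id θ)).sub_const (G (c 0)).im).congr_deriv ?_
    simp [hc]
  have c2 : c (2 * π) = c 0 := by
    simp only [hc, zero_add]
    rw [add_comm, periodic_circleMap]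
  have u0 : u 0 = 0 := by simp [hu]
  have u2 : u (2 * π) = 2 * π := by simp [hu, c2]
  have s0 : s 0 ≤ 0 := by simpa [hs, hc] using hη
  have s2 : s (2 * π) ≤ 0 := by simpa [hs, c2] using s0
  have cc : Continuous c := (continuous_circleMap 0 r).comp (by fun_prop)
  have qc : Continuous fun θ => (q (c θ)).re :=
    Complex.continuous_re.comp (h.qd.continuousOn.comp_continuous cc cm)
  have sc : Continuous s := continuous_iff_continuousAt.2 fun θ => (ds θ).continuousAt
  have uc : Continuous u := continuous_iff_continuousAt.2 fun θ => (du θ).continuousAt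
  have hb : ∀ θ ∈ Set.Icc 0 (2 * π), exp (s θ) ≤ prof T L (u θ) := fun θ hθ => by
    have m1 := mono_of_deriv (f := fun θ => T * u θ - s θ) hθ.1 (by fun_prop)
      (fun y _ => ((du y).const_mul T).sub (ds y))
      (fun y _ => by linarith [(abs_le.1 (h.im_le (cm y))).1])
    have m2 := mono_of_deriv (f := fun θ => T * u θ + s θ) hθ.2 (by fun_prop)
      (fun y _ => ((du y).const_mul T).add (ds y))
      (fun y _ => by linarith [(abs_le.1 (h.im_le (cm y))).2])
    simp only [u0, u2] at m1 m2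
    refine le_min (exp_le_exp.2 (hL _)) (le_min (exp_le_exp.2 ?_) (exp_le_exp.2 ?_)) <;> linarith
  have i1 := intervalIntegral.integral_comp_mul_deriv (a := 0) (b := 2 * π) (fun x _ => du x)
    qc.continuousOn (prof_cont T L)
  have i2 := prof_int T0 L0 (L := L) (L1.trans (le_of_eq (by rw [hT]; field_simp)))
  rw [u0, u2] at i1
  have i3 : ∫ θ in (0 : ℝ)..2 * π, exp (s θ) * (q (c θ)).re ≤
      ∫ θ in (0 : ℝ)..2 * π, (prof T L ∘ u) θ * (q (c θ)).re :=
    intervalIntegral.integral_mono_on (by positivity)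
      (Continuous.intervalIntegrable (by fun_prop) _ _)
      (Continuous.intervalIntegrable (((prof_cont T L).comp uc).mul qc) _ _)
      fun θ hθ => mul_le_mul_of_nonneg_right (hb θ hθ) (h.re _ (cm θ)).le
  rw [circleAverage_eq_integral_add η, smul_eq_mul, inv_mul_le_iff₀ (by positivity)]
  refine (i3.trans (i1.le.trans i2)).trans (le_of_eq ?_)
  rw [hT]
  field_simp
  ring

lemma mean_re {g : ℂ → ℂ} (hg : DifferentiableOn ℂ g (ball 0 1)) {r : ℝ} (r0 : 0 < r)
    (r1 : r < 1) : circleAverage (fun z => (g z).re) 0 r = (g 0).re := by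
  have hd : DiffContOnCl ℂ g (ball 0 |r|) := by
    apply DifferentiableOn.diffContOnCl
    rw [abs_of_pos r0, closure_ball _ r0.ne']
    exact hg.mono (closedBall_subset_ball r1)
  rw [← hd.circleAverage]
  exact Complex.reCLM.circleAverage_comp_comm
    ((hg.continuousOn.mono (sphere_subset_ball r1)).circleIntegrable r0.le)

/-- every strongly starlike function is `z exp (G z)` -/
lemma exists_dat (h0 : 0 < a) (h1 : a < 1) {f : ℂ → ℂ}
    (hd : DifferentiableOn ℂ f (ball 0 1)) (hi : Set.InjOn f (ball 0 1)) (hf0 : f 0 = 0)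
    (hf1 : deriv f 0 = 1)
    (harg : ∀ z ∈ ball (0 : ℂ) 1, z ≠ 0 → |Complex.arg (z * deriv f z / f z)| < a * π / 2) :
    ∃ q H G : ℂ → ℂ, Dat a q H G ∧ ∀ z ∈ ball (0 : ℂ) 1, f z = z * Complex.exp (G z) := by
  have hnb : ball (0 : ℂ) 1 ∈ 𝓝 (0 : ℂ) := ball_mem_nhds 0 one_pos
  have hz0 : (0 : ℂ) ∈ ball (0 : ℂ) 1 := mem_ball_self one_pos
  set F := dslope f 0 with hFdef
  have hFd : DifferentiableOn ℂ F (ball 0 1) := (Complex.differentiableOn_dslope hnb).2 hd
  have hfF : ∀ z, f z = z * F z := by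
    intro z
    have := sub_smul_dslope f 0 z
    rw [hf0, sub_zero, sub_zero, smul_eq_mul] at this
    exact this.symm
  have hF0 : F 0 = 1 := by rw [hFdef, dslope_same, hf1]
  have hFne : ∀ z ∈ ball (0 : ℂ) 1, F z ≠ 0 := by
    intro z hz hF
    by_cases h : z = 0
    · rw [h, hF0] at hF
      exact one_ne_zero hF
    · exact h (hi hz hz0 (by rw [hfF z, hF, mul_zero, hf0]))
  have hd' : DifferentiableOn ℂ (deriv f) (ball 0 1) := hd.deriv isOpen_ball
  set P : ℂ → ℂ := fun z => deriv f z / F z with hPdef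
  have hPd : DifferentiableOn ℂ P (ball 0 1) := hd'.div hFd hFne
  have hP0 : P 0 = 1 := by simp only [hPdef, hf1, hF0, div_one]
  have hpi := pi_pos
  have hParg : ∀ z ∈ ball (0 : ℂ) 1, |Complex.arg (P z)| < a * π / 2 := by
    intro z hz
    by_cases h : z = 0
    · rw [h, hP0, Complex.arg_one, abs_zero]
      positivity
    · have := harg z hz h
      rwa [hfF z, mul_div_mul_left _ _ h] at this
  have hPre : ∀ z ∈ ball (0 : ℂ) 1, 0 < (P z).re ∨ P z = 0 := by
    intro z hz
    rw [← Complex.abs_arg_lt_pi_div_two_iff]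
    have := hParg z hz
    nlinarith
  have hPne : ∀ z ∈ ball (0 : ℂ) 1, P z ≠ 0 := by
    intro z hz hP
    have hE : DifferentiableOn ℂ (fun z => Complex.exp (-P z)) (ball 0 1) := hPd.neg.cexp
    have hmax : IsMaxOn (norm ∘ fun z => Complex.exp (-P z)) (ball 0 1) z := by
      intro y hy
      simp only [Set.mem_ofPred_eq, Function.comp, hP, neg_zero, Complex.exp_zero, norm_one,
        Complex.norm_exp, Complex.neg_re]
      rw [Real.exp_le_one_iff]
      rcases hPre y hy with h | h
      · linarith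
      · rw [h]; simp
    have := Complex.eqOn_of_isPreconnected_of_isMaxOn_norm (convex_ball (0 : ℂ) 1).isPreconnected
      isOpen_ball hE hz hmax hz0
    simp only [Function.const, hP, hP0, neg_zero, Complex.exp_zero] at this
    have h2 := congrArg norm this
    rw [Complex.norm_exp, norm_one] at h2
    simp at h2
  have hFder : ∀ z ∈ ball (0 : ℂ) 1, HasDerivAt F (deriv F z) z := fun z hz =>
    (hFd.differentiableAt (isOpen_ball.mem_nhds hz)).hasDerivAt
  have hHd : DifferentiableOn ℂ (fun z => deriv F z / F z) (ball 0 1) :=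
    (hFd.deriv isOpen_ball).div hFd hFne
  obtain ⟨G, hG0, hG⟩ := hHd.isExactOn_ball.with_val_at 0 0
  refine ⟨P, fun z => deriv F z / F z, G, ⟨h0, h1, hPd, hP0,
    fun z hz => (hPre z hz).resolve_right (hPne z hz), hParg, fun z hz => ?_, hG0, hG⟩,
    fun z hz => ?_⟩
  · have e : deriv f z = F z + z * deriv F z := by
      have := ((hasDerivAt_id' z).fun_mul (hFder z hz)).deriv
      rw [show f = fun z => z * F z from funext hfF, this, one_mul]
    have := hFne z hz
    simp only [hPdef, e]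
    field_simp
    ring
  · have hK : ∀ z ∈ ball (0 : ℂ) 1, HasDerivAt (fun z => F z * Complex.exp (-G z)) 0 z := by
      intro z hz
      refine ((hFder z hz).fun_mul (hG z hz).fun_neg.cexp).congr_deriv ?_
      have := hFne z hz
      field_simp
      ring
    have := isOpen_ball.is_const_of_deriv_eq_zero (convex_ball (0 : ℂ) 1).isPreconnected
      (fun z hz => (hK z hz).differentiableAt.differentiableWithinAt)
      (fun z hz => (hK z hz).deriv) hz hz0
    rw [hF0, hG0, neg_zero, Complex.exp_zero, one_mul, Complex.exp_neg,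
      mul_inv_eq_one₀ (Complex.exp_ne_zero _)] at this
    rw [hfF, this]

lemma Dat.f_deriv (h : Dat a q H G) {z : ℂ} (hz : z ∈ ball (0 : ℂ) 1) :
    HasDerivAt (fun z => z * Complex.exp (G z)) (Complex.exp (G z) * q z) z := by
  refine ((hasDerivAt_id' z).fun_mul (h.Gd z hz).cexp).congr_deriv ?_
  linear_combination Complex.exp (G z) * h.hH z hz

lemma rad_pow {n : ℕ} (hn : 2 ≤ n) : 1 / 6 ≤ (1 - 1 / (n : ℝ)) ^ n := by
  obtain ⟨m, rfl⟩ : ∃ m, n = m + 1 := ⟨n - 1, by omega⟩
  have m1 : (1 : ℝ) ≤ m := by exact_mod_cast (by omega : 1 ≤ m)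
  have e : 1 - 1 / ((m + 1 : ℕ) : ℝ) = (1 + (m : ℝ)⁻¹)⁻¹ := by
    push_cast
    field_simp
    ring
  have h1 := one_add_inv_pow_le_exp (n := m)
  have h2 := exp_one_lt_d9
  have h3 : (m : ℝ)⁻¹ ≤ 1 := inv_le_one_of_one_le₀ m1
  rw [e, inv_pow, one_div]
  apply inv_anti₀ (by positivity)
  rw [pow_succ]
  nlinarith [mul_le_mul h1 (add_le_add_right h3 1) (by positivity) (exp_pos 1).le]

theorem Dat.upper (h : Dat a q H G) {n : ℕ} (hn : 2 ≤ n) :
    ‖coeff n (tay fun z => z * Complex.exp (G z))‖ ≤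
      36 / n * ((1 - a) + (n : ℝ) ^ (-(1 - a))) * exp (Lf (1 - a) (1 / n)) := by
  have hnb : ball (0 : ℂ) 1 ∈ 𝓝 (0 : ℂ) := ball_mem_nhds 0 one_pos
  have n2 : (2 : ℝ) ≤ n := by exact_mod_cast hn
  have n0 : (0 : ℝ) < n := by linarith
  have e0 : 0 < 1 - a := by linarith [h.a1]
  have ni : 1 / (n : ℝ) ≤ 1 / 2 := one_div_le_one_div_of_le two_pos n2
  have ni0 : 0 < 1 / (n : ℝ) := by positivity
  set r := 1 - 1 / (n : ℝ) with hr
  have r0 : 0 < r := by linarith
  have r1 : r < 1 := by linarith
  set L := Lf (1 - a) (1 / n) with hLdef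
  set f : ℂ → ℂ := fun z => z * Complex.exp (G z) with hf
  have fd : DifferentiableOn ℂ f (ball 0 1) :=
    fun z hz => (h.f_deriv hz).differentiableAt.differentiableWithinAt
  have qder : ∀ z ∈ ball (0 : ℂ) 1, HasDerivAt q (deriv q z) z := fun z hz =>
    (h.qd.differentiableAt (isOpen_ball.mem_nhds hz)).hasDerivAt
  set g1 : ℂ → ℂ := fun z => f z * q z with hg1
  have g1d : DifferentiableOn ℂ g1 (ball 0 1) := fd.mul h.qd
  set g : ℂ → ℂ := fun z => f z * (q z * q z + z * deriv q z) with hg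
  have gd : DifferentiableOn ℂ g (ball 0 1) :=
    fd.mul ((h.qd.mul h.qd).add (differentiableOn_id.mul (h.qd.deriv isOpen_ball)))
  have t1 : tay g1 = X * d⁄dX ℂ (tay f) := by
    rw [← tay_deriv, ← tay_id, ← tay_mul (f := fun z => z) analyticAt_id (fd.analyticAt hnb).deriv]
    apply tay_congr
    filter_upwards [hnb] with z hz
    rw [(h.f_deriv hz).deriv]
    simp only [hg1, hf]
    ring
  have t2 : tay g = X * d⁄dX ℂ (tay g1) := by
    rw [← tay_deriv, ← tay_id, ← tay_mul (f := fun z => z) analyticAt_id (g1d.analyticAt hnb).deriv]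
    apply tay_congr
    filter_upwards [hnb] with z hz
    rw [((h.f_deriv hz).fun_mul (qder z hz)).deriv]
    simp only [hg, hf]
    ring
  have c1 := cauchy_bound r0 (gd.mono (closedBall_subset_ball r1)) n
  rw [t2, coeff_X_mul_deriv, t1, coeff_X_mul_deriv, norm_mul, norm_mul, Complex.norm_natCast] at c1
  have hL : ∀ z : ℂ, ‖z‖ = r → (G z).re ≤ L := fun z hz => by
    have := h.growth (x := z / r) (by
      rw [norm_div, hz, Complex.norm_real, Real.norm_of_nonneg r0.le, div_self r0.ne'])
      le_rfl r0.le r1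
    have r' : (r : ℂ) ≠ 0 := by exact_mod_cast r0.ne'
    rw [mul_div_cancel₀ _ r', Complex.ofReal_zero, zero_mul, h.G0, sub_zero, Lf_one, hr,
      sub_sub_cancel] at this
    rw [Complex.zero_re, sub_zero, sub_zero] at this
    exact this
  set K := (2 * n : ℝ) ^ a with hK
  have hq : ∀ z : ℂ, ‖z‖ = r → ‖q z‖ ≤ K := fun z hz => by
    refine (h.norm_le (hz ▸ r1)).trans (rpow_le_rpow (by rw [hz]; apply div_nonneg <;> linarith) ?_
      h.a0.le)
    rw [hz, hr, sub_sub_cancel, div_le_iff₀ ni0]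
    have : 2 * (n : ℝ) * (1 / n) = 2 := by field_simp
    linarith
  have hq' : ∀ z : ℂ, ‖z‖ = r → ‖deriv q z‖ ≤ 2 * n * (q z).re := fun z hz => by
    have sub : ball z (1 / n) ⊆ ball (0 : ℂ) 1 := ball_subset_ball' (by
      rw [dist_zero_right, hz, hr]; linarith)
    have := cara_deriv ni0 (h.qd.mono sub) fun w hw => h.re w (sub hw)
    refine this.trans (le_of_eq ?_)
    field_simp
  have sp : sphere (0 : ℂ) r ⊆ ball 0 1 := sphere_subset_ball r1
  have cq : ContinuousOn (fun z => (q z).re) (sphere 0 r) :=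
    Complex.continuous_re.comp_continuousOn (h.qd.continuousOn.mono sp)
  have cq2 : ContinuousOn (fun z => (q z * q z).re) (sphere 0 r) :=
    Complex.continuous_re.comp_continuousOn ((h.qd.mul h.qd).continuousOn.mono sp)
  have cG : ContinuousOn (fun z => exp (G z).re * (q z).re) (sphere 0 r) :=
    (Complex.continuous_re.comp_continuousOn (h.Gdiff.continuousOn.mono sp)).rexp.mul cq
  have c2 : circleAverage (fun z => ‖g z‖) 0 r ≤ circleAverage (fun z =>
      (2 * K * exp L) • (q z).re - exp L • (q z * q z).re +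
        (2 * n : ℝ) • (exp (G z).re * (q z).re)) 0 r := by
    refine circleAverage_mono ((gd.continuousOn.mono sp).norm.circleIntegrable r0.le)
      (ContinuousOn.circleIntegrable r0.le (by fun_prop)) fun z hz => ?_
    rw [abs_of_pos r0, mem_sphere_zero_iff_norm] at hz
    have zb : z ∈ ball (0 : ℂ) 1 := mem_ball_zero_iff.2 (hz ▸ r1)
    have b1 := h.re z zb
    have b2 := (Complex.re_le_norm (q z)).trans (hq z hz)
    have b3 : ‖q z * q z‖ ≤ 2 * K * (q z).re - (q z * q z).re := by
      rw [norm_mul, ← sq, Complex.sq_norm, Complex.normSq_apply, Complex.mul_re]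
      nlinarith
    have b4 : ‖z * deriv q z‖ ≤ 2 * n * (q z).re := by
      rw [norm_mul, hz]
      exact (mul_le_of_le_one_left (norm_nonneg _) r1.le).trans (hq' z hz)
    have b5 : ‖f z‖ ≤ exp (G z).re := by
      simp only [hf, norm_mul, hz, Complex.norm_exp]
      exact mul_le_of_le_one_left (exp_pos _).le r1.le
    have b6 := exp_le_exp.2 (hL z hz)
    have b7 := mul_le_mul (b5.trans b6) b3 (norm_nonneg _) (exp_pos _).le
    have b8 := mul_le_mul b5 b4 (norm_nonneg _) (exp_pos _).le
    have b9 : ‖g z‖ ≤ ‖f z‖ * ‖q z * q z‖ + ‖f z‖ * ‖z * deriv q z‖ := by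
      simp only [hg]
      rw [norm_mul, ← mul_add]
      exact mul_le_mul_of_nonneg_left (norm_add_le _ _) (norm_nonneg _)
    simp only [smul_eq_mul]
    linarith
  rw [circleAverage_fun_add (ContinuousOn.circleIntegrable r0.le (by fun_prop))
    (ContinuousOn.circleIntegrable r0.le (by fun_prop)), circleAverage_fun_sub
    (ContinuousOn.circleIntegrable r0.le (by fun_prop))
    (ContinuousOn.circleIntegrable r0.le (by fun_prop)),
    circleAverage_fun_smul, circleAverage_fun_smul, circleAverage_fun_smul, mean_re h.qd r0 r1,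
    mean_re (h.qd.fun_mul h.qd) r0 r1] at c2
  have c3 := h.mean_rad r0 r1 (Lf_nonneg e0 ni0.le (by linarith)) (Lf_le e0 ni0.le)
    fun θ => hL _ (by rw [norm_circleMap_zero, abs_of_pos r0])
  set y := (n : ℝ) ^ (-(1 - a)) with hy
  have y0 : 0 < y := by positivity
  have c4 : 1 - (1 - a) * L / 2 = y := by
    rw [hLdef, Lf, hy, rpow_neg n0.le, one_div, inv_rpow n0.le]
    field_simp
    ring
  have c5 : K ≤ 2 * (n * y) := by
    rw [hK, mul_rpow two_pos.le n0.le, hy, ← rpow_one_add' n0.le (by linarith [h.a0]),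
      show 1 + -(1 - a) = a by ring]
    apply mul_le_mul_of_nonneg_right _ (by positivity)
    simpa using rpow_le_rpow_of_exponent_le (x := 2) (by norm_num) h.a1.le
  have c6 : 1 / 6 ≤ r ^ n := rad_pow hn
  rw [← hLdef, c4] at c3
  simp only [h.q0, mul_one, Complex.one_re, smul_eq_mul] at c2
  have EL := exp_pos L
  have c7 : (n : ℝ) * (n * ‖coeff n (tay f)‖) * (1 / 6) ≤ 6 * n * ((1 - a) + y) * exp L := by
    refine ((mul_le_mul_of_nonneg_left c6 (by positivity)).trans (c1.trans c2)).trans ?_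
    have d1 := mul_le_mul_of_nonneg_left c3 (by positivity : (0 : ℝ) ≤ 2 * n)
    have d2 := mul_le_mul_of_nonneg_right c5 EL.le
    have d3 : 0 ≤ n * (1 - a) * exp L := by positivity
    nlinarith
  rw [div_mul_eq_mul_div, div_mul_eq_mul_div, le_div_iff₀ n0]
  apply le_of_mul_le_mul_left _ n0
  linarith

end Pool.Agent.P.MP_bdc337_an.UO
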