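import Pool.Agent.P.MP_bdc337_an.UO.B

/-! Series with nonnegative coefficients, room inside the sector. -/

set_option autoImplicit false

open Finset PowerSeries Metric Filter Topology Real
open scoped ComplexOrder

namespace Pool.Agent.P.MP_bdc337_an.UO

variable {a : ℝ} {q H G : ℂ → ℂ}

/-- all coefficients are nonnegative reals -/
def NN (S : ℂ⟦X⟧) : Prop := ∀ k, 0 ≤ coeff k S

lemma NN.add {S T : ℂ⟦X⟧} (hS : NN S) (hT : NN T) : NN (S + T) := fun k => by
  rw [map_add]; exact add_nonneg (hS k) (hT k)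

lemma NN.mul {S T : ℂ⟦X⟧} (hS : NN S) (hT : NN T) : NN (S * T) := fun k => by
  rw [coeff_mul]; exact sum_nonneg fun p _ => mul_nonneg (hS _) (hT _)

lemma NN_C {c : ℝ} (hc : 0 ≤ c) : NN (C (c : ℂ)) := fun k => by
  rw [coeff_C]; split_ifs
  · exact Complex.zero_le_real.2 hc
  · exact le_rfl

lemma NN_X_pow (m : ℕ) : NN (X ^ m) := fun k => by
  rw [coeff_X_pow]; split_ifs
  · exact zero_le_one
  · exact le_rfl

lemma NN_fix {F A K : ℂ⟦X⟧} (hA : NN A) (hK : NN K) (a0 : coeff 0 A = 0) (k0 : coeff 0 K = 0)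
    (h0 : 0 ≤ coeff 0 F) (h : X * d⁄dX ℂ F = A * F + K * (X * d⁄dX ℂ F)) : NN F := by
  intro k
  induction k using Nat.strong_induction_on with
  | _ k ih =>
    rcases Nat.eq_zero_or_pos k with rfl | hk
    · exact h0
    · have e := congrArg (coeff k) h
      rw [map_add, coeff_conv a0 _ le_rfl, coeff_conv k0 _ le_rfl, coeff_X_mul_deriv] at e
      have p : (0 : ℂ) ≤ k * coeff k F := by
        rw [e]
        refine add_nonneg (sum_nonneg fun j hj => mul_nonneg (hA _) (ih j (mem_range.1 hj)))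
          (sum_nonneg fun j hj => mul_nonneg (hK _) ?_)
        rw [coeff_X_mul_deriv]
        exact mul_nonneg (Nat.cast_nonneg _) (ih j (mem_range.1 hj))
      have k' : (k : ℂ) ≠ 0 := Nat.cast_ne_zero.2 hk.ne'
      have := mul_nonneg (Complex.zero_le_real.2 (inv_nonneg.2 (Nat.cast_nonneg k))) p
      rwa [Complex.ofReal_inv, Complex.ofReal_natCast, inv_mul_cancel_left₀ k'] at this

/-- the Dirichlet kernel as a series -/
noncomputable def DS (m : ℕ) : ℂ⟦X⟧ := PowerSeries.mk fun j => if j < m then 1 else 0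

lemma NN_DS (m : ℕ) : NN (DS m) := fun k => by
  rw [DS, coeff_mk]; split_ifs
  · exact zero_le_one
  · exact le_rfl

lemma tay_DS (m : ℕ) : tay (fun z => ∑ j ∈ range m, z ^ j) = DS m := by
  simpa [DS] using tay_poly (fun _ => 1) m

lemma coeff_DS {m l : ℕ} (h : l < m) (S : ℂ⟦X⟧) :
    coeff l (DS m * S) = ∑ i ∈ range (l + 1), coeff i S := by
  rw [mul_comm, coeff_mul, Finset.Nat.sum_antidiagonal_eq_sum_range_succ_mk]
  refine sum_congr rfl fun i _ => ?_
  rw [DS, coeff_mk, if_pos (by omega), mul_one]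

lemma sum_tri (c : ℕ → ℂ) (m : ℕ) :
    ∑ l ∈ range m, ∑ i ∈ range (l + 1), c i = ∑ i ∈ range m, ((m : ℂ) - i) * c i := by
  induction m with
  | zero => simp
  | succ m ih =>
    rw [sum_range_succ, ih, sum_range_succ, sum_range_succ, ← add_assoc, ← sum_add_distrib]
    push_cast
    congr 1
    · exact sum_congr rfl fun i _ => by ring
    · ring

lemma arg_lt {γ : ℝ} (g0 : 0 < γ) (g1 : γ < π / 2) {v : ℂ}
    (hA : 0 < v.re * sin γ + v.im * cos γ) (hB : 0 < v.re * sin γ - v.im * cos γ) :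
    0 < v.re ∧ |Complex.arg v| < γ := by
  have s0 : 0 < sin γ := sin_pos_of_pos_of_lt_pi g0 (by linarith)
  have r0 : 0 < v.re := by nlinarith
  have hv : v ≠ 0 := fun e => by simp [e] at r0
  have nv := norm_pos_iff.2 hv
  have b := abs_lt.1 (Complex.abs_arg_lt_pi_div_two_iff.2 (Or.inl r0))
  have e1 : v.re = ‖v‖ * cos v.arg := by rw [Complex.cos_arg hv]; field_simp
  have e2 : v.im = ‖v‖ * sin v.arg := by rw [Complex.sin_arg]; field_simp
  refine ⟨r0, abs_lt.2 ⟨?_, ?_⟩⟩ <;> by_contra hc <;> push Not at hc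
  · have := sin_nonpos_of_nonpos_of_neg_pi_le (x := γ + v.arg) (by linarith) (by linarith)
    rw [sin_add] at this
    rw [e1, e2] at hA
    nlinarith
  · have := sin_nonpos_of_nonpos_of_neg_pi_le (x := γ - v.arg) (by linarith) (by linarith)
    rw [sin_sub] at this
    rw [e1, e2] at hB
    nlinarith

lemma sin_mul_ge (h0 : 0 < a) (h1 : a < 1) {x : ℝ} (x0 : 0 ≤ x) (x1 : x ≤ π) :
    a * sin x ≤ sin (a * x) := by
  have := strictConcaveOn_sin_Icc.concaveOn.2 ⟨x0, x1⟩ ⟨le_rfl, pi_pos.le⟩ h0.le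
    (show 0 ≤ 1 - a by linarith) (by ring)
  simpa using this

lemma room (h0 : 0 < a) (h1 : a < 1) {p g : ℂ} (hp : 0 < p.re)
    (hg : ‖g‖ < a * ‖p‖ ^ (a - 1) * p.re) :
    0 < (Complex.exp (a * Complex.log p) + g).re ∧
      |Complex.arg (Complex.exp (a * Complex.log p) + g)| < a * π / 2 := by
  have hpi := pi_pos
  have hv : p ≠ 0 := fun e => by simp [e] at hp
  have nv := norm_pos_iff.2 hv
  have b := abs_lt.1 (Complex.abs_arg_lt_pi_div_two_iff.2 (Or.inl hp))
  have e0 : a * ‖p‖ ^ (a - 1) * p.re = ‖p‖ ^ a * (a * cos p.arg) := by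
    rw [Complex.cos_arg hv, rpow_sub_one nv.ne']; field_simp
  have e1 : exp (a * log ‖p‖) = ‖p‖ ^ a := by rw [rpow_def_of_pos nv, mul_comm]
  have R0 : 0 < ‖p‖ ^ a := rpow_pos_of_pos nv _
  have m1 := sin_mul_ge h0 h1 (x := π / 2 + p.arg) (by linarith) (by linarith)
  have m2 := sin_mul_ge h0 h1 (x := π / 2 - p.arg) (by linarith) (by linarith)
  rw [sin_pi_div_two_sub, mul_sub, sin_sub, ← mul_div_assoc] at m2
  rw [add_comm, sin_add_pi_div_two, mul_add, sin_add, ← mul_div_assoc] at m1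
  have n1 : ∀ s c : ℝ, s ^ 2 + c ^ 2 = 1 → -‖g‖ ≤ g.re * s + g.im * c := fun s c h => by
    apply (abs_le_of_sq_le_sq' _ (norm_nonneg _)).1
    rw [Complex.sq_norm, Complex.normSq_apply]
    nlinarith [sq_nonneg (g.re * c - g.im * s)]
  have n2 := n1 _ _ (sin_sq_add_cos_sq (a * π / 2))
  have n3 := n1 (sin (a * π / 2)) (-cos (a * π / 2)) (by rw [neg_sq, sin_sq_add_cos_sq])
  rw [e0] at hg
  apply arg_lt (by positivity) (by nlinarith) <;>
    simp only [Complex.add_re, Complex.add_im, Complex.exp_re, Complex.exp_im,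
      Complex.re_ofReal_mul, Complex.im_ofReal_mul, Complex.log_re, Complex.log_im, e1]
  · nlinarith [mul_le_mul_of_nonneg_left m1 R0.le]
  · nlinarith [mul_le_mul_of_nonneg_left m2 R0.le]

lemma mk_dat (h0 : 0 < a) (h1 : a < 1) (qd : DifferentiableOn ℂ q (ball 0 1)) (q0 : q 0 = 1)
    (hq : ∀ z ∈ ball (0 : ℂ) 1, 0 < (q z).re ∧ |Complex.arg (q z)| < a * π / 2) :
    ∃ H G, Dat a q H G := by
  have hnb : ball (0 : ℂ) 1 ∈ 𝓝 (0 : ℂ) := ball_mem_nhds 0 one_pos
  have hHd : DifferentiableOn ℂ (dslope q 0) (ball 0 1) :=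
    (Complex.differentiableOn_dslope hnb).2 qd
  obtain ⟨G, hG0, hG⟩ := hHd.isExactOn_ball.with_val_at 0 0
  refine ⟨dslope q 0, G, h0, h1, qd, q0, fun z hz => (hq z hz).1, fun z hz => (hq z hz).2,
    fun z _ => ?_, hG0, hG⟩
  have := sub_smul_dslope q 0 z
  rwa [q0, sub_zero, smul_eq_mul] at this

lemma Dat.star (h : Dat a q H G) :
    DifferentiableOn ℂ (fun z => z * Complex.exp (G z)) (ball 0 1) ∧
    Set.InjOn (fun z => z * Complex.exp (G z)) (ball 0 1) ∧
    (fun z => z * Complex.exp (G z)) 0 = 0 ∧ deriv (fun z => z * Complex.exp (G z)) 0 = 1 ∧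
    ∀ z ∈ ball (0 : ℂ) 1, z ≠ 0 → |Complex.arg (z * deriv (fun z => z * Complex.exp (G z)) z /
      (fun z => z * Complex.exp (G z)) z)| < a * π / 2 := by
  refine ⟨fun z hz => (h.f_deriv hz).differentiableAt.differentiableWithinAt,
    inj_of_re_pos (P := q) (fun z hz hz' => ?_) h.re, by simp, ?_, fun z hz hz' => ?_⟩
  · refine (h.Gd z hz).congr_deriv ?_
    rw [← h.hH z hz]
    field_simp
  · rw [(h.f_deriv (mem_ball_self one_pos)).deriv, h.G0, h.q0]
    simp
  · rw [(h.f_deriv hz).deriv]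
    have := Complex.exp_ne_zero (G z)
    have e : z * (Complex.exp (G z) * q z) / (z * Complex.exp (G z)) = q z := by field_simp
    simp only [e]
    exact h.arg z hz

lemma Dat.euler (h : Dat a q H G) : X * d⁄dX ℂ (tay fun z => Complex.exp (G z)) =
    (tay q - 1) * tay fun z => Complex.exp (G z) := by
  have hnb : ball (0 : ℂ) 1 ∈ 𝓝 (0 : ℂ) := ball_mem_nhds 0 one_pos
  have aP : AnalyticAt ℂ q 0 := h.qd.analyticAt hnb
  have aF : AnalyticAt ℂ (fun z => Complex.exp (G z)) 0 := h.Gdiff.cexp.analyticAt hnb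
  have e : (fun z => z * deriv (fun z => Complex.exp (G z)) z) =ᶠ[𝓝 0]
      fun z => (q z - 1) * Complex.exp (G z) := by
    filter_upwards [hnb] with z hz
    rw [(h.Gd z hz).cexp.deriv]
    linear_combination Complex.exp (G z) * h.hH z hz
  have := tay_congr e
  rwa [tay_mul (f := fun z => z) analyticAt_id aF.deriv, tay_id, tay_deriv,
    tay_mul (by fun_prop) aF, tay_sub aP analyticAt_const, tay_const, map_one] at this

lemma Dat.hasSum (h : Dat a q H G) (hF : NN (tay fun z => Complex.exp (G z))) {t : ℝ}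
    (t0 : 0 ≤ t) (t1 : t < 1) :
    HasSum (fun i => t ^ i * (coeff i (tay fun z => Complex.exp (G z))).re) (exp (G t).re) := by
  have hz : (t : ℂ) ∈ ball (0 : ℂ) 1 := by
    rwa [mem_ball_zero_iff, Complex.norm_real, Real.norm_of_nonneg t0]
  have s := Complex.hasSum_taylorSeries_on_ball h.Gdiff.cexp hz
  have e : (fun n : ℕ => (n.factorial : ℂ)⁻¹ • ((t : ℂ) - 0) ^ n •
      iteratedDeriv n (fun z => Complex.exp (G z)) 0) =
      fun n => ((t ^ n : ℝ) : ℂ) * coeff n (tay fun z => Complex.exp (G z)) := by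
    funext n
    rw [coeff_tay, smul_eq_mul, smul_eq_mul, sub_zero]
    push_cast
    ring
  rw [e] at s
  have s1 := Complex.hasSum_re s
  have s2 := Complex.hasSum_im s
  simp only [Complex.re_ofReal_mul, Complex.im_ofReal_mul,
    ← (Complex.nonneg_iff.1 (hF _)).2, mul_zero] at s1 s2
  have i0 := s2.unique hasSum_zero
  have r0 := s1.nonneg fun i => mul_nonneg (pow_nonneg t0 _) (Complex.nonneg_iff.1 (hF _)).1
  rwa [← Complex.norm_exp, ← Complex.abs_re_eq_norm.2 i0, abs_of_nonneg r0]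

/-- triangular partial sums against two values -/
lemma tri_ge {c : ℕ → ℝ} (hc : ∀ i, 0 ≤ c i) {m : ℕ} (hm : 16 ≤ m) {u v : ℝ}
    (hu : HasSum (fun i => (1 - 16 * (1 / (m : ℝ))) ^ i * c i) u)
    (hv : HasSum (fun i => (1 - 1 / (m : ℝ)) ^ i * c i) v) :
    m / 2 * (u - v / 512) ≤ ∑ i ∈ range m, ((m : ℝ) - i) * c i := by
  have m16 : (16 : ℝ) ≤ m := by exact_mod_cast hm
  have m0 : (0 : ℝ) < m := by linarith
  have y0 : 0 < 1 / (m : ℝ) := by positivity
  have y1 : 1 / (m : ℝ) ≤ 1 / 16 := one_div_le_one_div_of_le (by norm_num) m16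
  have ym : m * (1 / (m : ℝ)) = 1 := by field_simp
  generalize 1 / (m : ℝ) = y at *
  refine hasSum_le (fun i => ?_) ((hu.sub (hv.div_const 512)).mul_left (m / 2 : ℝ))
    (hasSum_sum_of_ne_finset_zero (f := fun i => if i < m then ((m : ℝ) - i) * c i else 0)
      (s := range m) fun i hi => if_neg (mt mem_range.2 hi)) |>.trans
    (le_of_eq (sum_congr rfl fun i hi => if_pos (mem_range.1 hi)))
  have p0 : 0 ≤ (1 - y) ^ i := pow_nonneg (by linarith) _
  have hci := hc i
  by_cases hi : 2 * i ≤ m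
  · have i2 : 2 * (i : ℝ) ≤ m := by exact_mod_cast hi
    have p1 : (1 - 16 * y) ^ i ≤ 1 := pow_le_one₀ (by linarith) (by linarith)
    rw [if_pos (by omega)]
    have := mul_le_mul_of_nonneg_right p1 hci
    have := mul_nonneg p0 hci
    nlinarith
  · have i2 : (m : ℝ) ≤ 2 * i := by exact_mod_cast (by omega : m ≤ 2 * i)
    have p1 : (1 - 16 * y) ^ i ≤ (exp (-(15 * y)) * (1 - y)) ^ i := by
      apply pow_le_pow_left₀ (by linarith)
      nlinarith [add_one_le_exp (-(15 * y))]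
    have p2 : exp (-(15 * y)) ^ i ≤ 1 / 512 := by
      rw [← exp_nat_mul]
      refine (exp_le_exp.2 (show _ ≤ -(7 : ℕ) * (1 : ℝ) by push_cast; nlinarith)).trans ?_
      rw [neg_mul, exp_neg, exp_nat_mul, one_div]
      apply inv_anti₀ (by norm_num)
      refine le_trans (by norm_num) (pow_le_pow_left₀ (by norm_num) exp_one_gt_d9.le 7)
    rw [mul_pow] at p1
    have p3 := mul_le_mul_of_nonneg_right (p1.trans (mul_le_mul_of_nonneg_right p2 p0)) hci
    refine le_trans (mul_nonpos_of_nonneg_of_nonpos (by positivity) (by linarith)) ?_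
    split_ifs with h
    · exact mul_nonneg (sub_nonneg.2 (by exact_mod_cast h.le)) hci
    · exact le_rfl

end Pool.Agent.P.MP_bdc337_an.UO
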