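import Pool.Agent.P.MP_bdc337_an.UO.C

/-! The lower bound. -/

set_option autoImplicit false
set_option maxHeartbeats 1600000

open Finset PowerSeries Metric Filter Topology Real
open scoped ComplexOrder

namespace Pool.Agent.P.MP_bdc337_an.UO

variable {a r : ℝ} {z : ℂ}

/-- the Poisson type kernel -/
noncomputable def pp (r : ℝ) (z : ℂ) : ℂ := (1 + r * z) / (1 - r * z)

/-- its power -/
noncomputable def Q0 (a r : ℝ) (z : ℂ) : ℂ := Complex.exp (a * Complex.log (pp r z))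

lemma rz_le (r0 : 0 ≤ r) (hz : z ∈ ball (0 : ℂ) 1) : ‖(r : ℂ) * z‖ ≤ r := by
  rw [norm_mul, Complex.norm_real, Real.norm_of_nonneg r0]
  exact mul_le_of_le_one_right r0 (mem_ball_zero_iff.1 hz).le

lemma den_ge (r0 : 0 ≤ r) (hz : z ∈ ball (0 : ℂ) 1) : 1 - r ≤ ‖1 - (r : ℂ) * z‖ := by
  have := norm_sub_norm_le (1 : ℂ) (r * z)
  rw [norm_one] at this
  linarith [rz_le r0 hz]

lemma den_ne (r0 : 0 ≤ r) (r1 : r < 1) (hz : z ∈ ball (0 : ℂ) 1) : 1 - (r : ℂ) * z ≠ 0 :=
  norm_pos_iff.1 (by linarith [den_ge r0 hz])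

lemma pp_re (r0 : 0 ≤ r) (r1 : r < 1) (hz : z ∈ ball (0 : ℂ) 1) :
    (1 - r) / ‖1 - (r : ℂ) * z‖ ^ 2 ≤ (pp r z).re := by
  have l := pow_le_pow_left₀ (norm_nonneg _) (rz_le r0 hz) 2
  rw [Complex.sq_norm, Complex.normSq_apply] at l
  rw [pp, Complex.div_re, ← add_div, Complex.sq_norm]
  apply div_le_div_of_nonneg_right _ (Complex.normSq_nonneg _)
  simp only [Complex.add_re, Complex.one_re, Complex.sub_re, Complex.add_im, Complex.one_im,
    Complex.sub_im]
  nlinarith

lemma pp_pos (r0 : 0 ≤ r) (r1 : r < 1) (hz : z ∈ ball (0 : ℂ) 1) : 0 < (pp r z).re :=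
  lt_of_lt_of_le (div_pos (by linarith) (pow_pos (norm_pos_iff.2 (den_ne r0 r1 hz)) 2))
    (pp_re r0 r1 hz)

lemma pp_norm (r0 : 0 ≤ r) (r1 : r < 1) (hz : z ∈ ball (0 : ℂ) 1) : ‖pp r z‖ ≤ 2 / (1 - r) := by
  have := norm_add_le (1 : ℂ) (r * z)
  rw [norm_one] at this
  rw [pp, norm_div]
  exact div_le_div₀ two_pos.le (by linarith [rz_le r0 hz]) (by linarith) (den_ge r0 hz)

lemma Q0_deriv (r0 : 0 ≤ r) (r1 : r < 1) (hz : z ∈ ball (0 : ℂ) 1) :
    HasDerivAt (Q0 a r) (Q0 a r z * (a * (2 * r / (1 - r * z) ^ 2 / pp r z))) z := by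
  have l : HasDerivAt (fun z : ℂ => (r : ℂ) * z) r z := by
    simpa using (hasDerivAt_id z).const_mul (r : ℂ)
  have l2 : HasDerivAt (pp r) (2 * r / (1 - r * z) ^ 2) z := by
    refine ((l.const_add 1).fun_div (l.const_sub 1) (den_ne r0 r1 hz)).congr_deriv ?_
    ring
  exact ((l2.clog (Or.inl (pp_pos r0 r1 hz))).const_mul (a : ℂ)).cexp

lemma Q0_diff (r0 : 0 ≤ r) (r1 : r < 1) : DifferentiableOn ℂ (Q0 a r) (ball 0 1) :=
  fun _ hz => (Q0_deriv r0 r1 hz).differentiableAt.differentiableWithinAt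

lemma Q0_zero : Q0 a r 0 = 1 := by simp [Q0, pp]

lemma NN_Q0 (h0 : 0 < a) (r0 : 0 ≤ r) (r1 : r < 1) : NN (tay (Q0 a r) - 1) := by
  have hnb : ball (0 : ℂ) 1 ∈ 𝓝 (0 : ℂ) := ball_mem_nhds 0 one_pos
  have aP : AnalyticAt ℂ (Q0 a r) 0 := (Q0_diff r0 r1).analyticAt hnb
  have aP' := aP.deriv
  have ode : (fun z => z * deriv (Q0 a r) z) =ᶠ[𝓝 0] fun z =>
      ((2 * a * r : ℝ) * z ^ 1) * Q0 a r z + ((r ^ 2 : ℝ) * z ^ 2) * (z * deriv (Q0 a r) z) := by
    filter_upwards [hnb] with z hz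
    rw [(Q0_deriv r0 r1 hz).deriv]
    have e1 := den_ne r0 r1 hz
    have e2 : pp r z ≠ 0 := fun e => by simpa [e] using pp_pos r0 r1 hz
    have e3 : 1 + (r : ℂ) * z ≠ 0 := fun e => e2 (by rw [pp, e, zero_div])
    have e4 : (a : ℂ) * (2 * r / (1 - r * z) ^ 2 / pp r z) * ((1 - r * z) * (1 + r * z)) =
        2 * a * r := by
      simp only [pp]
      field_simp
    push_cast
    linear_combination z * Q0 a r z * e4
  have t1 := tay_congr ode
  rw [tay_add (by fun_prop) (by fun_prop), tay_mul (f := fun z => _ * z ^ 1) (by fun_prop) aP,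
    tay_mul (f := fun z => _ * z ^ 2) (by fun_prop) (by fun_prop),
    tay_mul (f := fun z => z) analyticAt_id aP', tay_id, tay_deriv,
    tay_const_mul _ (by fun_prop), tay_const_mul _ (by fun_prop), tay_pow, tay_pow] at t1
  have := NN_fix ((NN_C (by positivity)).mul (NN_X_pow 1)) ((NN_C (by positivity)).mul (NN_X_pow 2))
    (by simp) (by simp) (by rw [coeff_zero_tay, Q0_zero]; exact zero_le_one) t1
  intro k
  rw [map_sub, coeff_one]
  split_ifs with h
  · rw [h, coeff_zero_tay, Q0_zero, sub_self]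
  · rw [sub_zero]
    exact this k

lemma Q0_real (h0 : 0 < a) (h1 : a < 1) (r0 : 0 ≤ r) (r1 : r < 1) {t : ℝ} (t0 : 0 < t)
    (t1 : t < 1) : t * (a * (2 * r * (1 - r * t) ^ (-a)) - 2) ≤ (Q0 a r t).re - 1 := by
  have x0 : 0 ≤ r * t := by positivity
  have x2 : r * t ≤ t := mul_le_of_le_one_left t0.le r1.le
  have p1 : 0 < 1 - r * t := by linarith
  have e : (Q0 a r t).re = (1 + r * t) ^ a * (1 - r * t) ^ (-a) := by
    have : pp r t = ((1 + r * t) / (1 - r * t) : ℝ) := by simp [pp]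
    rw [Q0, this, ← Complex.ofReal_log (by positivity), ← Complex.ofReal_mul, Complex.exp_ofReal_re,
      mul_comm, ← rpow_def_of_pos (by positivity), div_rpow (by positivity) p1.le, rpow_neg p1.le,
      div_eq_mul_inv]
  rw [e, show t * (a * (2 * r * (1 - r * t) ^ (-a)) - 2) =
    r * t * (2 * a * (1 - r * t) ^ (-a)) - 2 * t by ring]
  generalize r * t = x at *
  have w1 : 1 ≤ (1 - x) ^ (-a) := one_le_rpow_of_pos_of_le_one_of_nonpos p1 (by linarith) (by linarith)
  have w2 : (1 - x) * (1 - x) ^ (-a) ≤ 1 := by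
    rw [← rpow_one_add' p1.le (by linarith)]
    exact rpow_le_one p1.le (by linarith) (by linarith)
  have w3 : 1 ≤ (1 + x) ^ a := one_le_rpow (by linarith) h0.le
  have w4 : a * (1 + x) ≤ (1 + x) ^ a := by
    have b1 : (2 : ℝ) ^ (a - 1) ≤ (1 + x) ^ (a - 1) :=
      rpow_le_rpow_of_nonpos (by linarith) (by linarith) (by linarith)
    have b2 := add_one_le_exp (log 2 * (a - 1))
    rw [← rpow_def_of_pos two_pos] at b2
    have b3 := log_two_lt_d9
    rw [rpow_sub_one (x := 1 + x) (by linarith), le_div_iff₀ (by linarith)] at b1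
    refine le_trans (mul_le_mul_of_nonneg_right ?_ (by linarith)) b1
    nlinarith
  generalize (1 - x) ^ (-a) = W at *
  generalize (1 + x) ^ a = V at *
  have u0 : 0 ≤ V * W - 1 := by nlinarith
  have u1 : 2 * a * W - 2 ≤ V * W - 1 := by
    nlinarith [mul_le_mul_of_nonneg_right w4 (by linarith : 0 ≤ W)]
  nlinarith [mul_le_mul_of_nonneg_left u1 x0]

lemma dir_le {m : ℕ} (hm : 1 ≤ m) (hz : z ∈ ball (0 : ℂ) 1) :
    ‖∑ j ∈ range m, z ^ j‖ * ‖1 - ((1 - 1 / (m : ℝ) : ℝ) : ℂ) * z‖ ≤ 3 := by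
  have z1 := (mem_ball_zero_iff.1 hz).le
  have m0 : (0 : ℝ) < m := by exact_mod_cast hm
  have p : ∀ j, ‖z ^ j‖ ≤ 1 := fun j => by rw [norm_pow]; exact pow_le_one₀ (norm_nonneg _) z1
  have e : (∑ j ∈ range m, z ^ j) * (1 - ((1 - 1 / (m : ℝ) : ℝ) : ℂ) * z) =
      1 - z ^ m + ((1 / (m : ℝ) : ℝ) : ℂ) * (z * ∑ j ∈ range m, z ^ j) := by
    rw [← geom_sum_mul_neg]
    push_cast
    ring
  have b1 : ‖∑ j ∈ range m, z ^ j‖ ≤ m :=
    (norm_sum_le _ _).trans ((sum_le_sum fun j _ => p j).trans (by simp))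
  have b2 : ‖1 - z ^ m‖ ≤ 2 := (norm_sub_le _ _).trans (by rw [norm_one]; linarith [p m])
  have b3 : ‖((1 / (m : ℝ) : ℝ) : ℂ) * (z * ∑ j ∈ range m, z ^ j)‖ ≤ 1 := by
    rw [norm_mul, norm_mul, Complex.norm_real, Real.norm_of_nonneg (by positivity), one_div,
      inv_mul_le_iff₀ m0, mul_one]
    exact (mul_le_of_le_one_left (norm_nonneg _) z1).trans b1
  rw [← norm_mul, e]
  exact (norm_add_le _ _).trans (by linarith)

theorem lower (h0 : 0 < a) (h1 : a < 1) {m N : ℕ} (hm : 1 ≤ m) (hN : m ≤ N) :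
    ∃ q H G : ℂ → ℂ, Dat a q H G ∧
      a * (m : ℝ) ^ (-(1 - a)) * exp (Lf (1 - a) (1 / m)) ≤
        2000000 * (N * ‖coeff (N + 1) (tay fun z => z * Complex.exp (G z))‖) := by
  have hnb : ball (0 : ℂ) 1 ∈ 𝓝 (0 : ℂ) := ball_mem_nhds 0 one_pos
  have m1 : (1 : ℝ) ≤ m := by exact_mod_cast hm
  have m0 : (0 : ℝ) < m := by linarith
  have e0 : 0 < 1 - a := by linarith
  have y0 : 0 < 1 / (m : ℝ) := by positivity
  have y1 : 1 / (m : ℝ) ≤ 1 := (div_le_one m0).2 m1
  set r := 1 - 1 / (m : ℝ) with hr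
  have r0 : 0 ≤ r := by linarith
  have r1 : r < 1 := by linarith
  set μ := (m : ℝ) ^ (-(1 - a)) with hμ
  have μ0 : 0 < μ := by positivity
  set δ := a * μ / m / 20 with hδ
  have δ0 : 0 < δ := by positivity
  set D : ℂ → ℂ := fun z => ∑ j ∈ range m, z ^ j with hD
  have Dd : Differentiable ℂ D := by rw [hD]; fun_prop
  set q : ℂ → ℂ := fun z => Q0 a r z + δ * (z ^ (N - m + 1) * (D z * D z)) with hq
  obtain ⟨H, G, h⟩ := mk_dat (q := q) h0 h1
    ((Q0_diff r0 r1).add (Differentiable.differentiableOn (by fun_prop))) (by simp [hq, Q0_zero])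
    fun z hz => by
      apply room h0 h1 (pp_pos r0 r1 hz)
      have v0 := norm_pos_iff.2 (den_ne r0 r1 hz)
      have b1 := pp_re r0 r1 hz
      have b2 := pp_norm r0 r1 hz
      have b3 := dir_le hm hz
      rw [← hr] at b3
      have e1 : 1 - r = 1 / m := by rw [hr]; ring
      rw [e1] at b1 b2
      have b4 : μ / 2 ≤ ‖pp r z‖ ^ (a - 1) := by
        refine le_trans ?_ (rpow_le_rpow_of_nonpos (norm_pos_iff.2 fun e => by
          simpa [e] using pp_pos r0 r1 hz) b2 (by linarith))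
        rw [div_div_eq_mul_div, div_one, mul_rpow two_pos.le m0.le, hμ, neg_sub, div_eq_inv_mul,
          ← rpow_neg_one]
        exact mul_le_mul_of_nonneg_right
          (rpow_le_rpow_of_exponent_le (by norm_num) (by linarith)) (by positivity)
      have b5 : ‖z ^ (N - m + 1)‖ ≤ 1 := by
        rw [norm_pow]; exact pow_le_one₀ (norm_nonneg _) (mem_ball_zero_iff.1 hz).le
      have b6 : ‖D z‖ * ‖D z‖ ≤ 9 / ‖1 - (r : ℂ) * z‖ ^ 2 := by
        rw [le_div_iff₀ (by positivity)]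
        have := mul_self_le_mul_self (by positivity) b3
        simp only [hD]
        nlinarith
      rw [norm_mul, norm_mul, norm_mul, Complex.norm_real, Real.norm_of_nonneg δ0.le]
      calc δ * (‖z ^ (N - m + 1)‖ * (‖D z‖ * ‖D z‖))
          ≤ δ * (1 * (9 / ‖1 - (r : ℂ) * z‖ ^ 2)) := by gcongr
        _ < δ * (1 * (10 / ‖1 - (r : ℂ) * z‖ ^ 2)) := by gcongr; norm_num
        _ = a * (μ / 2) * (1 / m / ‖1 - (r : ℂ) * z‖ ^ 2) := by rw [hδ]; ring
        _ ≤ _ := by gcongr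
  refine ⟨q, H, G, h, ?_⟩
  have aD : AnalyticAt ℂ D 0 := Dd.analyticAt 0
  have tq : tay q - 1 = (tay (Q0 a r) - 1) + C (δ : ℂ) * (X ^ (N - m + 1) * (DS m * DS m)) := by
    rw [hq, tay_add ((Q0_diff r0 r1).analyticAt hnb) (by fun_prop), tay_const_mul _ (by fun_prop),
      tay_mul (by fun_prop) (by fun_prop), tay_pow, tay_mul aD aD, hD, tay_DS]
    ring
  have nq : NN (tay q - 1) := by
    rw [tq]
    exact (NN_Q0 h0 r0 r1).add ((NN_C δ0.le).mul ((NN_X_pow _).mul ((NN_DS m).mul (NN_DS m))))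
  have eu := h.euler
  have F0 : coeff 0 (tay fun z => Complex.exp (G z)) = 1 := by
    rw [coeff_zero_tay, h.G0, Complex.exp_zero]
  have nF : NN (tay fun z => Complex.exp (G z)) :=
    NN_fix (K := 0) nq (fun k => by simp) (by rw [map_sub, coeff_zero_tay, h.q0]; simp) (by simp)
      (by rw [F0]; exact zero_le_one) (by rw [eu]; ring)
  have hs := fun t => h.hasSum nF (t := t)
  rw [tay_mul (f := fun z => z) analyticAt_id (h.Gdiff.cexp.analyticAt hnb), tay_id,
    coeff_succ_X_mul]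
  set F := tay fun z => Complex.exp (G z) with hF
  have hc : ∀ i, 0 ≤ (coeff i F).re := fun i => (Complex.nonneg_iff.1 (nF i)).1
  have k1 : δ * ∑ i ∈ range m, ((m : ℝ) - i) * (coeff i F).re ≤ N * ‖coeff N F‖ := by
    have e := congrArg (coeff N) eu
    rw [coeff_X_mul_deriv, tq, add_mul, map_add, mul_assoc, mul_assoc, mul_assoc, coeff_C_mul] at e
    have e2 : coeff N (X ^ (N - m + 1) * (DS m * (DS m * F))) =
        ∑ i ∈ range m, ((m : ℂ) - i) * coeff i F := by
      conv_lhs => rw [show coeff N = coeff (R := ℂ) (m - 1 + (N - m + 1)) by congr 1; omega]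
      rw [coeff_X_pow_mul, coeff_DS (by omega), Nat.sub_add_cancel hm, ← sum_tri]
      exact sum_congr rfl fun l hl => coeff_DS (mem_range.1 hl) F
    have e3 := congrArg Complex.re e
    rw [e2, Complex.add_re, Complex.re_ofReal_mul, Complex.re_sum, ← Complex.ofReal_natCast,
      Complex.re_ofReal_mul] at e3
    have e4 := (Complex.nonneg_iff.1 (((NN_Q0 h0 r0 r1).mul nF) N)).1
    have e5 : ∑ i ∈ range m, (((m : ℂ) - i) * coeff i F).re =
        ∑ i ∈ range m, ((m : ℝ) - i) * (coeff i F).re := sum_congr rfl fun i _ => by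
      rw [← Complex.re_ofReal_mul]; simp
    rw [e5] at e3
    have := mul_le_mul_of_nonneg_left (Complex.re_le_norm (coeff N F)) (Nat.cast_nonneg (α := ℝ) N)
    linarith
  have k2 : m * exp (Lf (1 - a) (1 / m)) ≤
      100000 * ∑ i ∈ range m, ((m : ℝ) - i) * (coeff i F).re := by
    by_cases h17 : 17 ≤ m
    · have m17 : (17 : ℝ) ≤ m := by exact_mod_cast h17
      have y2 : 1 / (m : ℝ) ≤ 1 / 17 := one_div_le_one_div_of_le (by norm_num) m17
      have b1 := tri_ge hc (by omega : 16 ≤ m) (hs _ (by linarith) (by linarith)) (hs r r0 r1)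
      set ρ := 1 - 16 * (1 / (m : ℝ)) with hρ
      have ρ0 : 0 ≤ ρ := by linarith
      have ρ1 : ρ < 1 := by linarith
      have b2 := h.growth (x := 1) norm_one ρ0 (show ρ ≤ r by linarith) r1
      have b3 := Lf_ratio e0 y0 (l := 16) (by norm_num) (by linarith)
      rw [mul_one, mul_one, hr, hρ, sub_sub_cancel, sub_sub_cancel, ← hr, ← hρ] at b2
      have b4 : exp (G r).re ≤ 256 * exp (G ρ).re := by
        refine (exp_le_exp.2 (show _ ≤ log 16 + log 16 + (G ρ).re by linarith)).trans ?_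
        rw [exp_add, exp_add, exp_log (by norm_num)]
        norm_num
      have b5 := mono_of_deriv (f := fun t : ℝ => (G (t * 1)).re - a * Lf (1 - a) (1 - r * t) + 2 * t)
        (f' := fun t => ((q (t * 1)).re - 1) / t - a * (2 * r * (1 - r * t) ^ (-a)) + 2 * 1) ρ0
        (((h.ray_cont norm_one le_rfl ρ1).sub fun y hy => ((Lf_deriv h1 (by
          nlinarith [hy.1, hy.2])).const_mul a).continuousAt.continuousWithinAt).add (by fun_prop))
        (fun y hy => ((h.ray norm_one hy.1 (hy.2.trans ρ1)).sub ((Lf_deriv h1 (by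
          nlinarith [hy.1, hy.2])).const_mul a)).add ((hasDerivAt_id y).const_mul 2))
        fun y hy => by
          have c1 := Q0_real h0 h1 r0 r1 hy.1 (hy.2.trans ρ1)
          have c2 : 0 ≤ ((δ : ℂ) * ((y : ℂ) ^ (N - m + 1) * (D y * D y))).re := by
            have c3 : (0 : ℂ) ≤ y := Complex.zero_le_real.2 hy.1.le
            have c4 : 0 ≤ D y := sum_nonneg fun j _ => pow_nonneg c3 j
            exact (Complex.nonneg_iff.1 (mul_nonneg (Complex.zero_le_real.2 δ0.le)
              (mul_nonneg (pow_nonneg c3 _) (mul_nonneg c4 c4)))).1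
          have c5 : a * (2 * r * (1 - r * y) ^ (-a)) - 2 ≤ ((q (y * 1)).re - 1) / y := by
            rw [le_div_iff₀ hy.1, mul_one, hq]
            simp only [Complex.add_re]
            linarith
          linarith
      simp only [mul_one, Complex.ofReal_zero, h.G0, Complex.zero_re, mul_zero, sub_zero, Lf_one,
        add_zero] at b5
      have x0 : 0 < 1 - r * ρ := by nlinarith
      have x1 : 1 - r * ρ ≤ 17 * (1 / m) := by rw [hr, hρ]; nlinarith
      have b6 := Lf_ratio e0 y0 (l := 17) (by norm_num) (by linarith)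
      have b7 : Lf (1 - a) (17 * (1 / m)) ≤ Lf (1 - a) (1 - r * ρ) := by
        have := rpow_le_rpow x0.le x1 e0.le
        unfold Lf
        gcongr
      have b8 := Lf_le e0 x0.le
      rw [le_div_iff₀ e0] at b8
      have b9 : exp (Lf (1 - a) (1 / m)) ≤ 25000 * exp (G ρ).re := by
        refine (exp_le_exp.2 (show _ ≤ log 17 + log 17 + (4 : ℕ) * 1 + (G ρ).re by
          push_cast; linarith)).trans ?_
        rw [exp_add, exp_add, exp_add, exp_log (by norm_num), exp_nat_mul]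
        have := pow_le_pow_left₀ (exp_pos 1).le (exp_one_lt_d9.le.trans (show _ ≤ 3 by norm_num)) 4
        have := exp_pos (G ρ).re
        nlinarith
      nlinarith [mul_le_mul_of_nonneg_left b4 m0.le, mul_le_mul_of_nonneg_left b9 m0.le]
    · have m17 : (m : ℝ) ≤ 17 := by exact_mod_cast (by omega : m ≤ 17)
      have b1 := single_le_sum (f := fun i : ℕ => ((m : ℝ) - i) * (coeff i F).re) (s := range m)
        (fun i hi => mul_nonneg (sub_nonneg.2 (by exact_mod_cast (mem_range.1 hi).le)) (hc i))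
        (mem_range.2 hm)
      simp only [F0, Nat.cast_zero, sub_zero, Complex.one_re, mul_one] at b1
      have b2 := Lf_ratio e0 y0 m1 (le_of_eq (by field_simp))
      rw [mul_one_div_cancel m0.ne', Lf_one] at b2
      have b3 : exp (Lf (1 - a) (1 / m)) ≤ 17 * 17 := by
        refine (exp_le_exp.2 (show _ ≤ log m + log m by linarith)).trans ?_
        rw [exp_add, exp_log m0]
        nlinarith
      nlinarith
  calc a * μ * exp (Lf (1 - a) (1 / m)) = 20 * δ * (m * exp (Lf (1 - a) (1 / m))) := by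
        rw [hδ]; field_simp
    _ ≤ 20 * δ * (100000 * ∑ i ∈ range m, ((m : ℝ) - i) * (coeff i F).re) := by gcongr
    _ ≤ _ := by linarith

end Pool.Agent.P.MP_bdc337_an.UO
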